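import Pool.Agent.Helper83.CB.Defs4

/-!
# Module EXT: the operator model of the exterior algebra
-/

namespace Pool.Agent.Helper83.CB

section

variable (ι : Type) [Fintype ι] [DecidableEq ι]

/-- the exterior algebra -/
abbrev ext_A : Type := ExteriorAlgebra ℝ (ι → ℝ)

/-- coordinates on the exterior algebra -/
theorem ext_coord : Nonempty (ext_A ι ≃ₗ[ℝ] (Finset ι → ℝ)) := by
  classical
  let _ : LinearOrder ι := linearOrderOfSTO WellOrderingRel
  exact ⟨(Module.Basis.ExteriorAlgebra (Pi.basisFun ℝ ι)).equivFun⟩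

variable {ι}

/-- transport of an endomorphism -/
noncomputable def ext_conj (φ : ext_A ι ≃ₗ[ℝ] (Finset ι → ℝ)) (T : ext_A ι →ₗ[ℝ] ext_A ι) :
    (Finset ι → ℝ) →L[ℝ] (Finset ι → ℝ) :=
  LinearMap.toContinuousLinearMap (φ.toLinearMap ∘ₗ T ∘ₗ φ.symm.toLinearMap)

theorem ext_conj_apply (φ : ext_A ι ≃ₗ[ℝ] (Finset ι → ℝ)) (T : ext_A ι →ₗ[ℝ] ext_A ι)
    (x : Finset ι → ℝ) : ext_conj φ T x = φ (T (φ.symm x)) := rfl

/-- the permutation of the coordinates -/
noncomputable def ext_p (σ : Equiv.Perm ι) : (ι → ℝ) →ₗ[ℝ] (ι → ℝ) :=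
  LinearMap.funLeft ℝ ℝ (σ.symm : ι → ι)

theorem ext_p_single (σ : Equiv.Perm ι) (μ : ι) :
    ext_p σ (Pi.single μ (1 : ℝ)) = Pi.single (σ μ) 1 := by
  funext i
  unfold ext_p
  rw [LinearMap.funLeft_apply]
  by_cases h : i = σ μ
  · subst h
    rw [Equiv.symm_apply_apply, Pi.single_eq_same, Pi.single_eq_same]
  · rw [Pi.single_eq_of_ne h, Pi.single_eq_of_ne]
    intro h'
    apply h
    rw [← h', Equiv.apply_symm_apply]

theorem ext_p_comp (σ : Equiv.Perm ι) : (ext_p σ) ∘ₗ (ext_p σ⁻¹) = LinearMap.id := by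
  apply LinearMap.ext
  intro f
  funext i
  unfold ext_p
  rw [LinearMap.comp_apply, LinearMap.funLeft_apply, LinearMap.funLeft_apply]
  show f (σ (σ.symm i)) = f i
  rw [Equiv.apply_symm_apply]

end

theorem st_EXT : ST_EXT := by
  intro ι _ _
  classical
  obtain ⟨φ⟩ := ext_coord ι
  refine ⟨{
    X := Finset ι → ℝ
    e := fun μ => ext_conj φ (LinearMap.mulLeft ℝ (ExteriorAlgebra.ι ℝ (Pi.single μ (1 : ℝ))))
    c := fun μ => ext_conj φ (CliffordAlgebra.contractLeft (LinearMap.proj μ))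
    v := φ 1
    U := fun σ => ext_conj φ (ExteriorAlgebra.map (ext_p σ)).toLinearMap
    ee := ?_
    ce := ?_
    cv := ?_
    hv := ?_
    Uv := ?_
    Ue := ?_
    Uinv := ?_ }⟩
  · intro μ ν
    apply ContinuousLinearMap.ext
    intro x
    rw [mul_apply_eq_comp, neg_apply,
      mul_apply_eq_comp]
    simp only [ext_conj_apply, LinearEquiv.symm_apply_apply, LinearMap.mulLeft_apply]
    rw [← mul_assoc, ← mul_assoc, ← map_neg, ← neg_mul]
    congr 2
    exact eq_neg_of_add_eq_zero_left (ExteriorAlgebra.ι_add_mul_swap _ _)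
  · intro μ ν
    apply ContinuousLinearMap.ext
    intro x
    rw [add_apply, mul_apply_eq_comp,
      mul_apply_eq_comp]
    simp only [ext_conj_apply, LinearEquiv.symm_apply_apply, LinearMap.mulLeft_apply]
    have h := CliffordAlgebra.contractLeft_ι_mul (Q := (0 : QuadraticForm ℝ (ι → ℝ)))
      (LinearMap.proj μ : Module.Dual ℝ (ι → ℝ)) (Pi.single ν (1 : ℝ)) (φ.symm x)
    have h' : CliffordAlgebra.contractLeft (LinearMap.proj μ : Module.Dual ℝ (ι → ℝ))
        (ExteriorAlgebra.ι ℝ (Pi.single ν (1 : ℝ)) * φ.symm x) =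
        (Pi.single ν (1 : ℝ) : ι → ℝ) μ • φ.symm x -
          ExteriorAlgebra.ι ℝ (Pi.single ν (1 : ℝ)) *
            CliffordAlgebra.contractLeft (LinearMap.proj μ : Module.Dual ℝ (ι → ℝ))
              (φ.symm x) := h
    rw [h', ← map_add, sub_add_cancel, map_smul, LinearEquiv.apply_symm_apply]
    by_cases hμν : μ = ν
    · subst hμν
      rw [if_pos rfl, Pi.single_eq_same, one_smul]
      rfl
    · rw [if_neg hμν, Pi.single_eq_of_ne hμν, zero_smul]
      rfl
  · intro μ
    rw [ext_conj_apply, LinearEquiv.symm_apply_apply]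
    have h : CliffordAlgebra.contractLeft (Q := (0 : QuadraticForm ℝ (ι → ℝ)))
      (LinearMap.proj μ : Module.Dual ℝ (ι → ℝ)) 1 = 0 := CliffordAlgebra.contractLeft_one _ _
    have h' : CliffordAlgebra.contractLeft (LinearMap.proj μ : Module.Dual ℝ (ι → ℝ))
        (1 : ext_A ι) = 0 := h
    rw [h', map_zero]
  · intro h
    have h1 : (1 : ext_A ι) = 0 := φ.injective (by rw [h, map_zero])
    exact one_ne_zero h1
  · intro σ
    rw [ext_conj_apply, LinearEquiv.symm_apply_apply, AlgHom.toLinearMap_apply, map_one]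
  · intro σ μ
    apply ContinuousLinearMap.ext
    intro x
    rw [mul_apply_eq_comp, mul_apply_eq_comp]
    simp only [ext_conj_apply, LinearEquiv.symm_apply_apply, LinearMap.mulLeft_apply,
      AlgHom.toLinearMap_apply]
    rw [map_mul, ExteriorAlgebra.map_apply_ι, ext_p_single]
  · intro σ
    apply ContinuousLinearMap.ext
    intro x
    rw [mul_apply_eq_comp]
    simp only [ext_conj_apply, LinearEquiv.symm_apply_apply, AlgHom.toLinearMap_apply]
    have h : (ExteriorAlgebra.map (ext_p σ)).comp (ExteriorAlgebra.map (ext_p σ⁻¹)) =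
        AlgHom.id ℝ (ext_A ι) := by
      rw [ExteriorAlgebra.map_comp_map, ext_p_comp, ExteriorAlgebra.map_id]
    have h' := AlgHom.congr_fun h (φ.symm x)
    rw [AlgHom.comp_apply] at h'
    rw [h']
    simp

end Pool.Agent.Helper83.CB
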