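import Pool.Agent.Helper83.CB.Defs4

/-!
# Module SHAPE: the shape of the mean of a characteristic form
-/

namespace Pool.Agent.Helper83.CB

section general

variable {ι : Type} [Fintype ι] [DecidableEq ι] (Λ : Ext ι)

theorem shape_ee0 (μ : ι) : Λ.e μ * Λ.e μ = 0 := by
  have h := Λ.ee μ μ
  have h2 : (2 : ℝ) • (Λ.e μ * Λ.e μ) = 0 := by
    rw [two_smul]
    nth_rw 1 [h]
    exact neg_add_cancel _
  exact (smul_eq_zero.mp h2).resolve_left (by norm_num)

theorem shape_ce (μ : ι) : Λ.c μ * Λ.e μ = 1 - Λ.e μ * Λ.c μ := by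
  have h := Λ.ce μ μ
  rw [if_pos rfl] at h
  exact eq_sub_of_add_eq h

theorem shape_cne {μ ν : ι} (h : μ ≠ ν) : Λ.c μ * Λ.e ν = -(Λ.e ν * Λ.c μ) := by
  have h' := Λ.ce μ ν
  rw [if_neg h] at h'
  exact eq_neg_of_add_eq_zero_left h'

/-- products of wedge operators -/
def shape_el (l : List ι) : Λ.X →L[ℝ] Λ.X := (l.map Λ.e).prod

theorem shape_el_nil : shape_el Λ [] = 1 := rfl

theorem shape_el_cons (μ : ι) (l : List ι) : shape_el Λ (μ :: l) = Λ.e μ * shape_el Λ l := by
  unfold shape_el; rw [List.map_cons, List.prod_cons]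

theorem shape_el_perm {l l' : List ι} (h : l.Perm l') :
    shape_el Λ l = shape_el Λ l' ∨ shape_el Λ l = -shape_el Λ l' := by
  induction h with
  | nil => exact Or.inl rfl
  | cons x _ ih =>
    rw [shape_el_cons, shape_el_cons]
    rcases ih with h | h
    · left; rw [h]
    · right; rw [h, mul_neg]
  | swap x y l =>
    right
    rw [shape_el_cons, shape_el_cons, shape_el_cons, shape_el_cons, ← mul_assoc, ← mul_assoc,
      Λ.ee y x, neg_mul]
  | trans _ _ ih1 ih2 =>
    rcases ih1 with h | h <;> rcases ih2 with h' | h'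
    · left; rw [h, h']
    · right; rw [h, h']
    · right; rw [h, h']
    · left; rw [h, h', neg_neg]

theorem shape_el_dup {μ : ι} {l : List ι} (h : μ ∈ l) : Λ.e μ * shape_el Λ l = 0 := by
  induction l with
  | nil => exact absurd h List.not_mem_nil
  | cons ν l ih =>
    rw [shape_el_cons, ← mul_assoc]
    by_cases hμν : μ = ν
    · rw [hμν, shape_ee0, zero_mul]
    · have h' : μ ∈ l := by
        rcases List.mem_cons.mp h with h | h
        · exact absurd h hμν
        · exact h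
      rw [Λ.ee μ ν, neg_mul, mul_assoc, ih h', mul_zero, neg_zero]

theorem shape_c_el {μ : ι} {l : List ι} (h : μ ∉ l) :
    Λ.c μ * shape_el Λ l = shape_el Λ l * Λ.c μ ∨
      Λ.c μ * shape_el Λ l = -(shape_el Λ l * Λ.c μ) := by
  induction l with
  | nil => left; rw [shape_el_nil, mul_one, one_mul]
  | cons ν l ih =>
    rw [List.mem_cons, not_or] at h
    rw [shape_el_cons, ← mul_assoc, shape_cne Λ h.1, neg_mul, mul_assoc]
    rcases ih h.2 with h' | h'
    · right; rw [h', mul_assoc]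
    · left; rw [h', mul_neg, neg_neg, mul_assoc]

theorem shape_c_el_v {μ : ι} {l : List ι} (h : μ ∉ l) : Λ.c μ (shape_el Λ l Λ.v) = 0 := by
  have h1 : Λ.c μ (shape_el Λ l Λ.v) = (Λ.c μ * shape_el Λ l) Λ.v := rfl
  rw [h1]
  rcases shape_c_el Λ h with h' | h'
  · rw [h']
    show shape_el Λ l (Λ.c μ Λ.v) = 0
    rw [Λ.cv, map_zero]
  · rw [h']
    show -(shape_el Λ l (Λ.c μ Λ.v)) = 0
    rw [Λ.cv, map_zero, neg_zero]

/-- the operators `e c` on the vectors of the basis -/
theorem shape_N (μ : ι) (l : List ι) : (Λ.e μ * Λ.c μ) (shape_el Λ l Λ.v) =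
    (if μ ∈ l then (1 : ℝ) else 0) • shape_el Λ l Λ.v := by
  by_cases h : μ ∈ l
  · rw [if_pos h, one_smul]
    have h1 : Λ.e μ * Λ.c μ = 1 - Λ.c μ * Λ.e μ := by rw [shape_ce]; abel
    rw [h1]
    show shape_el Λ l Λ.v - Λ.c μ ((Λ.e μ * shape_el Λ l) Λ.v) = shape_el Λ l Λ.v
    rw [shape_el_dup Λ h]
    show shape_el Λ l Λ.v - Λ.c μ 0 = shape_el Λ l Λ.v
    rw [map_zero, sub_zero]
  · rw [if_neg h, zero_smul]
    show Λ.e μ (Λ.c μ (shape_el Λ l Λ.v)) = 0
    rw [shape_c_el_v Λ h, map_zero]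

theorem shape_el_ne {l : List ι} (h : l.Nodup) : shape_el Λ l Λ.v ≠ 0 := by
  induction l with
  | nil => exact Λ.hv
  | cons μ l ih =>
    rw [List.nodup_cons] at h
    intro h0
    apply ih h.2
    have h1 : Λ.c μ (shape_el Λ (μ :: l) Λ.v) = shape_el Λ l Λ.v := by
      rw [shape_el_cons]
      show (Λ.c μ * Λ.e μ) (shape_el Λ l Λ.v) = shape_el Λ l Λ.v
      rw [shape_ce]
      show shape_el Λ l Λ.v - Λ.e μ (Λ.c μ (shape_el Λ l Λ.v)) = shape_el Λ l Λ.v
      rw [shape_c_el_v Λ h.1, map_zero, sub_zero]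
    rw [← h1, h0, map_zero]

/-- the basis vectors -/
noncomputable def shape_b (S : Finset ι) : Λ.X := shape_el Λ S.toList Λ.v

theorem shape_N_b (μ : ι) (S : Finset ι) : (Λ.e μ * Λ.c μ) (shape_b Λ S) =
    (if μ ∈ S then (1 : ℝ) else 0) • shape_b Λ S := by
  unfold shape_b
  rw [shape_N]
  simp only [Finset.mem_toList]

theorem shape_b_ne (S : Finset ι) : shape_b Λ S ≠ 0 := shape_el_ne Λ S.nodup_toList

/-- independence of the basis vectors -/
theorem shape_b_ind : LinearIndependent ℝ (shape_b Λ) := by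
  classical
  let φ := Fintype.equivFin ι
  let T : Module.End ℝ Λ.X := ∑ μ, ((2 : ℝ) ^ ((φ μ : ℕ))) • ((Λ.e μ * Λ.c μ : Λ.X →L[ℝ] Λ.X) :
    Λ.X →ₗ[ℝ] Λ.X)
  let τ : Finset ι → ℝ := fun S => ∑ μ ∈ S, (2 : ℝ) ^ ((φ μ : ℕ))
  have hinj : Function.Injective τ := by
    intro S S' h
    have h1 : ∀ S : Finset ι, τ S = ((∑ k ∈ S.map ⟨fun μ => (φ μ : ℕ), fun a b h =>
        φ.injective (Fin.ext h)⟩, 2 ^ k : ℕ) : ℝ) := by
      intro S
      show ∑ μ ∈ S, (2 : ℝ) ^ ((φ μ : ℕ)) = _
      rw [Finset.sum_map]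
      push_cast
      rfl
    rw [h1 S, h1 S'] at h
    have h2 := Finset.geomSum_injective (le_refl 2) (Nat.cast_injective h)
    exact Finset.map_injective _ h2
  refine Module.End.eigenvectors_linearIndependent' T τ hinj (shape_b Λ) ?_
  intro S
  refine ⟨?_, shape_b_ne Λ S⟩
  rw [Module.End.mem_eigenspace_iff]
  show (∑ μ, ((2 : ℝ) ^ ((φ μ : ℕ))) • ((Λ.e μ * Λ.c μ : Λ.X →L[ℝ] Λ.X) :
    Λ.X →ₗ[ℝ] Λ.X)) (shape_b Λ S) = τ S • shape_b Λ S
  rw [LinearMap.sum_apply]
  have h1 : ∀ μ ∈ Finset.univ, (((2 : ℝ) ^ ((φ μ : ℕ))) •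
      ((Λ.e μ * Λ.c μ : Λ.X →L[ℝ] Λ.X) : Λ.X →ₗ[ℝ] Λ.X)) (shape_b Λ S) =
      (if μ ∈ S then (2 : ℝ) ^ ((φ μ : ℕ)) else 0) • shape_b Λ S := by
    intro μ _
    show ((2 : ℝ) ^ ((φ μ : ℕ))) • ((Λ.e μ * Λ.c μ) (shape_b Λ S)) = _
    rw [shape_N_b, smul_smul]
    congr 1
    split_ifs
    · rw [mul_one]
    · rw [mul_zero]
  rw [Finset.sum_congr rfl h1, ← Finset.sum_smul, Finset.sum_ite_mem, Finset.univ_inter]

/-- the span of the products -/
noncomputable def shape_Sp : Submodule ℝ (Λ.X →L[ℝ] Λ.X) :=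
  Submodule.span ℝ (Set.range fun S : Finset ι => shape_el Λ S.toList)

theorem shape_el_mem (l : List ι) (h : l.Nodup) : shape_el Λ l ∈ shape_Sp Λ := by
  classical
  have hp : l.Perm l.toFinset.toList := by
    rw [List.perm_ext_iff_of_nodup h (Finset.nodup_toList _)]
    intro a
    rw [Finset.mem_toList, List.mem_toFinset]
  have hm : shape_el Λ l.toFinset.toList ∈ shape_Sp Λ := Submodule.subset_span ⟨_, rfl⟩
  rcases shape_el_perm Λ hp with h' | h'
  · rw [h']; exact hm
  · rw [h']; exact Submodule.neg_mem _ hm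

theorem shape_e_Sp (μ : ι) {z : Λ.X →L[ℝ] Λ.X} (hz : z ∈ shape_Sp Λ) :
    Λ.e μ * z ∈ shape_Sp Λ := by
  unfold shape_Sp at hz
  induction hz using Submodule.span_induction with
  | mem z hz =>
    obtain ⟨S, rfl⟩ := hz
    by_cases h : μ ∈ S.toList
    · show Λ.e μ * shape_el Λ S.toList ∈ shape_Sp Λ
      rw [shape_el_dup Λ h]
      exact Submodule.zero_mem _
    · show Λ.e μ * shape_el Λ S.toList ∈ shape_Sp Λ
      rw [← shape_el_cons]
      exact shape_el_mem Λ _ (List.nodup_cons.mpr ⟨h, S.nodup_toList⟩)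
  | zero => rw [mul_zero]; exact Submodule.zero_mem _
  | add a b _ _ h1 h2 => rw [mul_add]; exact Submodule.add_mem _ h1 h2
  | smul r a _ h => rw [mul_smul_comm]; exact Submodule.smul_mem _ _ h

theorem shape_ev_Sp {w : Λ.X →L[ℝ] Λ.X} (hw : w ∈ Λ.ev) : w ∈ shape_Sp Λ := by
  have key : ∀ z ∈ shape_Sp Λ, w * z ∈ shape_Sp Λ := by
    unfold Ext.ev at hw
    induction hw using Algebra.adjoin_induction with
    | mem x hx =>
      obtain ⟨μ, ν, rfl⟩ := hx
      intro z hz
      rw [mul_assoc]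
      exact shape_e_Sp Λ μ (shape_e_Sp Λ ν hz)
    | algebraMap r =>
      intro z hz
      rw [← Algebra.smul_def]
      exact Submodule.smul_mem _ _ hz
    | add x y _ _ h1 h2 =>
      intro z hz
      rw [add_mul]
      exact Submodule.add_mem _ (h1 z hz) (h2 z hz)
    | mul x y _ _ h1 h2 =>
      intro z hz
      rw [mul_assoc]
      exact h1 _ (h2 z hz)
  have h1 : (1 : Λ.X →L[ℝ] Λ.X) ∈ shape_Sp Λ := by
    have h := shape_el_mem Λ [] List.nodup_nil
    rwa [shape_el_nil] at h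
  have h := key 1 h1
  rwa [mul_one] at h

theorem shape_expand {w : Λ.X →L[ℝ] Λ.X} (hw : w ∈ shape_Sp Λ) :
    ∃ a : Finset ι → ℝ, w = ∑ S, a S • shape_el Λ S.toList := by
  unfold shape_Sp at hw
  obtain ⟨a, ha⟩ := (Submodule.mem_span_range_iff_exists_fun ℝ).mp hw
  exact ⟨a, ha.symm⟩

theorem shape_expand_v (a : Finset ι → ℝ) :
    (∑ S, a S • shape_el Λ S.toList) Λ.v = ∑ S, a S • shape_b Λ S := by
  rw [ContinuousLinearMap.sum_apply]
  rfl

/-- an element of the algebra is determined by its value at the vacuum -/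
theorem shape_inj {w : Λ.X →L[ℝ] Λ.X} (hw : w ∈ shape_Sp Λ) (h : w Λ.v = 0) : w = 0 := by
  obtain ⟨a, rfl⟩ := shape_expand Λ hw
  rw [shape_expand_v] at h
  have h1 := Fintype.linearIndependent_iff.mp (shape_b_ind Λ) a h
  refine Finset.sum_eq_zero fun S _ => ?_
  rw [h1 S, zero_smul]

/-- diagonal operators -/
theorem shape_diag (a : Finset ι → ℝ) (T : Λ.X →L[ℝ] Λ.X) (τ : Finset ι → ℝ) (lam : ℝ)
    (hT : ∀ S, T (shape_b Λ S) = τ S • shape_b Λ S)
    (h : T (∑ S, a S • shape_b Λ S) = lam • ∑ S, a S • shape_b Λ S) (S : Finset ι) :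
    a S * (τ S - lam) = 0 := by
  have h1 : ∑ S, (a S * (τ S - lam)) • shape_b Λ S = 0 := by
    have h2 : ∀ S, (a S * (τ S - lam)) • shape_b Λ S =
        T (a S • shape_b Λ S) - lam • (a S • shape_b Λ S) := by
      intro S
      rw [map_smul, hT, smul_smul, smul_smul, ← sub_smul]
      congr 1
      ring
    rw [Finset.sum_congr rfl fun S _ => h2 S, Finset.sum_sub_distrib, ← map_sum, h,
      Finset.smul_sum, sub_self]
  exact Fintype.linearIndependent_iff.mp (shape_b_ind Λ) _ h1 S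

theorem shape_num_b (S : Finset ι) : Λ.num (shape_b Λ S) = (S.card : ℝ) • shape_b Λ S := by
  unfold Ext.num
  rw [ContinuousLinearMap.sum_apply, Finset.sum_congr rfl fun μ _ => shape_N_b Λ μ S,
    ← Finset.sum_smul, Finset.sum_ite_mem, Finset.univ_inter, Finset.sum_const, nsmul_eq_mul,
    mul_one]

theorem shape_num_v : Λ.num Λ.v = 0 := by
  unfold Ext.num
  rw [ContinuousLinearMap.sum_apply]
  refine Finset.sum_eq_zero fun μ _ => ?_
  show Λ.e μ (Λ.c μ Λ.v) = 0
  rw [Λ.cv, map_zero]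

theorem shape_num_e (μ : ι) : Λ.num * Λ.e μ = Λ.e μ * Λ.num + Λ.e μ := by
  unfold Ext.num
  rw [Finset.sum_mul, Finset.mul_sum]
  have h : ∀ ν, Λ.e ν * Λ.c ν * Λ.e μ = Λ.e μ * (Λ.e ν * Λ.c ν) + if ν = μ then Λ.e μ else 0 := by
    intro ν
    by_cases hν : ν = μ
    · subst hν
      rw [if_pos rfl, mul_assoc, shape_ce, mul_sub, mul_one, ← mul_assoc, shape_ee0, zero_mul,
        sub_zero, zero_add]
    · rw [if_neg hν, add_zero, mul_assoc, shape_cne Λ hν, mul_neg, ← mul_assoc, ← mul_assoc,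
        Λ.ee ν μ, neg_mul, neg_neg]
  rw [Finset.sum_congr rfl fun ν _ => h ν, Finset.sum_add_distrib, Finset.sum_ite_eq']
  simp only [Finset.mem_univ, if_true]

theorem shape_c_ee (μ α β : ι) : Λ.c μ * (Λ.e α * Λ.e β) =
    Λ.e α * Λ.e β * Λ.c μ + (if μ = α then Λ.e β else 0) - (if μ = β then Λ.e α else 0) := by
  have h1 : Λ.c μ * Λ.e α = (if μ = α then 1 else 0) - Λ.e α * Λ.c μ :=
    eq_sub_of_add_eq (Λ.ce μ α)
  have h2 : Λ.c μ * Λ.e β = (if μ = β then 1 else 0) - Λ.e β * Λ.c μ :=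
    eq_sub_of_add_eq (Λ.ce μ β)
  calc Λ.c μ * (Λ.e α * Λ.e β) = (Λ.c μ * Λ.e α) * Λ.e β := by rw [mul_assoc]
    _ = (if μ = α then Λ.e β else 0) - Λ.e α * (Λ.c μ * Λ.e β) := by
        rw [h1, sub_mul, ite_mul, one_mul, zero_mul, mul_assoc]
    _ = _ := by
        rw [h2, mul_sub, mul_ite, mul_one, mul_zero, ← mul_assoc]
        abel

theorem shape_cc_ee (α β μ ν : ι) : Λ.c β (Λ.c α ((Λ.e μ * Λ.e ν) Λ.v)) =
    ((if α = μ then (1 : ℝ) else 0) * (if β = ν then 1 else 0) -
      (if α = ν then (1 : ℝ) else 0) * (if β = μ then 1 else 0)) • Λ.v := by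
  have h1 : ∀ α β : ι, Λ.c α (Λ.e β Λ.v) = (if α = β then (1 : ℝ) else 0) • Λ.v := by
    intro α β
    have h := congrArg (fun T : Λ.X →L[ℝ] Λ.X => T Λ.v) (Λ.ce α β)
    have h' : Λ.c α (Λ.e β Λ.v) + Λ.e β (Λ.c α Λ.v) =
        (if α = β then (1 : Λ.X →L[ℝ] Λ.X) else 0) Λ.v := h
    rw [Λ.cv, map_zero, add_zero] at h'
    rw [h']
    split_ifs
    · rw [one_smul]; rfl
    · rw [zero_smul]; rfl
  have h2 : Λ.c α ((Λ.e μ * Λ.e ν) Λ.v) = (if α = μ then (1 : ℝ) else 0) • Λ.e ν Λ.v -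
      (if α = ν then (1 : ℝ) else 0) • Λ.e μ Λ.v := by
    have h : Λ.c α ((Λ.e μ * Λ.e ν) Λ.v) = (Λ.c α * (Λ.e μ * Λ.e ν)) Λ.v := rfl
    rw [h, shape_c_ee]
    show Λ.e μ (Λ.e ν (Λ.c α Λ.v)) + (if α = μ then Λ.e ν else 0) Λ.v -
      (if α = ν then Λ.e μ else 0) Λ.v = _
    rw [Λ.cv, map_zero, map_zero, zero_add]
    congr 1
    · split_ifs
      · rw [one_smul]
      · rw [zero_smul]; rfl
    · split_ifs
      · rw [one_smul]
      · rw [zero_smul]; rfl
  rw [h2, map_sub, map_smul, map_smul, h1, h1, smul_smul, smul_smul, ← sub_smul]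

theorem shape_U_el (σ : Equiv.Perm ι) (l : List ι) :
    Λ.U σ (shape_el Λ l Λ.v) = shape_el Λ (l.map σ) Λ.v := by
  induction l with
  | nil => exact Λ.Uv σ
  | cons μ l ih =>
    rw [shape_el_cons, List.map_cons, shape_el_cons]
    show (Λ.U σ * Λ.e μ) (shape_el Λ l Λ.v) = Λ.e (σ μ) (shape_el Λ (l.map σ) Λ.v)
    rw [Λ.Ue, ← ih]
    rfl

/-- the operator `e_μ c_ν e_ν c_μ` on the basis -/
theorem shape_pair_b {μ ν : ι} (hμν : μ ≠ ν) (S : Finset ι) :
    (Λ.e μ * Λ.c ν * (Λ.e ν * Λ.c μ)) (shape_b Λ S) =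
      (if μ ∈ S ∧ ν ∉ S then (1 : ℝ) else 0) • shape_b Λ S := by
  by_cases hμ : μ ∈ S
  · have hp : S.toList.Perm (μ :: S.toList.erase μ) :=
      List.perm_cons_erase (Finset.mem_toList.mpr hμ)
    have hnd : (μ :: S.toList.erase μ).Nodup := hp.nodup_iff.mp S.nodup_toList
    rw [List.nodup_cons] at hnd
    set l := S.toList.erase μ with hl
    have hν : ν ∈ l ↔ ν ∈ S := by
      rw [← Finset.mem_toList, hp.mem_iff, List.mem_cons]
      constructor
      · intro h; exact Or.inr h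
      · rintro (h | h)
        · exact absurd h.symm hμν
        · exact h
    have h1 : (Λ.e μ * Λ.c ν * (Λ.e ν * Λ.c μ)) (shape_el Λ (μ :: l) Λ.v) =
        (if μ ∈ S ∧ ν ∉ S then (1 : ℝ) else 0) • shape_el Λ (μ :: l) Λ.v := by
      have h2 : Λ.c μ (shape_el Λ (μ :: l) Λ.v) = shape_el Λ l Λ.v := by
        rw [shape_el_cons]
        show (Λ.c μ * Λ.e μ) (shape_el Λ l Λ.v) = shape_el Λ l Λ.v
        rw [shape_ce]
        show shape_el Λ l Λ.v - Λ.e μ (Λ.c μ (shape_el Λ l Λ.v)) = shape_el Λ l Λ.v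
        rw [shape_c_el_v Λ hnd.1, map_zero, sub_zero]
      show Λ.e μ ((Λ.c ν * Λ.e ν) (Λ.c μ (shape_el Λ (μ :: l) Λ.v))) = _
      rw [h2, shape_ce]
      show Λ.e μ (shape_el Λ l Λ.v - (Λ.e ν * Λ.c ν) (shape_el Λ l Λ.v)) = _
      rw [shape_N, map_sub, map_smul]
      have h3 : Λ.e μ (shape_el Λ l Λ.v) = shape_el Λ (μ :: l) Λ.v := rfl
      rw [h3]
      by_cases hν' : ν ∈ S
      · rw [if_pos (hν.mpr hν'), if_neg (fun h => h.2 hν'), one_smul, zero_smul, sub_self]
      · rw [if_neg (fun h => hν' (hν.mp h)), if_pos ⟨hμ, hν'⟩, one_smul, zero_smul, sub_zero]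
    unfold shape_b
    rcases shape_el_perm Λ hp with h | h
    · rw [h]; exact h1
    · rw [h]
      show (Λ.e μ * Λ.c ν * (Λ.e ν * Λ.c μ)) (-(shape_el Λ (μ :: l) Λ.v)) =
        (if μ ∈ S ∧ ν ∉ S then (1 : ℝ) else 0) • (-(shape_el Λ (μ :: l) Λ.v))
      rw [map_neg, h1, smul_neg]
  · rw [if_neg (fun h => hμ h.1), zero_smul]
    have h1 : Λ.c μ (shape_b Λ S) = 0 :=
      shape_c_el_v Λ (fun h => hμ (Finset.mem_toList.mp h))
    show Λ.e μ (Λ.c ν (Λ.e ν (Λ.c μ (shape_b Λ S)))) = 0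
    rw [h1, map_zero, map_zero, map_zero]

end general

section pairs

variable {n : ℕ} (Λ : Ext (Ix n))

/-- pair forms -/
def shape_w (i : Fin n) : Λ.X →L[ℝ] Λ.X := Λ.e (some (i, false)) * Λ.e (some (i, true))

/-- lists of pairs of indices -/
def shape_fl (l : List (Fin n)) : List (Ix n) :=
  l.flatMap fun i => [some (i, false), some (i, true)]

omit Λ in
theorem shape_fl_cons (i : Fin n) (l : List (Fin n)) :
    shape_fl (i :: l) = some (i, false) :: some (i, true) :: shape_fl l := rfl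

omit Λ in
theorem shape_fl_mem {l : List (Fin n)} {μ : Ix n} :
    μ ∈ shape_fl l ↔ ∃ i b, i ∈ l ∧ μ = some (i, b) := by
  unfold shape_fl
  rw [List.mem_flatMap]
  constructor
  · rintro ⟨i, hi, h⟩
    simp only [List.mem_cons, List.not_mem_nil, or_false] at h
    rcases h with rfl | rfl
    · exact ⟨i, false, hi, rfl⟩
    · exact ⟨i, true, hi, rfl⟩
  · rintro ⟨i, b, hi, rfl⟩
    refine ⟨i, hi, ?_⟩
    cases b <;> simp

omit Λ in
theorem shape_fl_nodup {l : List (Fin n)} (h : l.Nodup) : (shape_fl l).Nodup := by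
  induction l with
  | nil => exact List.nodup_nil
  | cons i l ih =>
    rw [List.nodup_cons] at h
    have hn : ∀ b, (some (i, b) : Ix n) ∉ shape_fl l := by
      intro b hb
      obtain ⟨j, b', hj, h'⟩ := shape_fl_mem.mp hb
      have h2 : i = j := congrArg Prod.fst (Option.some.inj h')
      exact h.1 (h2 ▸ hj)
    rw [shape_fl_cons, List.nodup_cons, List.nodup_cons]
    refine ⟨?_, hn _, ih h.2⟩
    rw [List.mem_cons, not_or]
    refine ⟨?_, hn _⟩
    intro h'
    exact Bool.false_ne_true (congrArg Prod.snd (Option.some.inj h'))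

omit Λ in
theorem shape_fl_length (l : List (Fin n)) : (shape_fl l).length = 2 * l.length := by
  induction l with
  | nil => rfl
  | cons i l ih =>
    rw [shape_fl_cons, List.length_cons, List.length_cons, List.length_cons, ih]
    ring

omit Λ in
theorem shape_fl_map (σ : Equiv.Perm (Fin n)) (l : List (Fin n)) :
    (shape_fl l).map (sI σ) = shape_fl (l.map σ) := by
  induction l with
  | nil => rfl
  | cons i l ih =>
    rw [shape_fl_cons, List.map_cons, List.map_cons, List.map_cons, shape_fl_cons, ih]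
    rfl

theorem shape_el_fl (l : List (Fin n)) :
    shape_el Λ (shape_fl l) = (l.map (shape_w Λ)).prod := by
  induction l with
  | nil => rfl
  | cons i l ih =>
    rw [shape_fl_cons, shape_el_cons, shape_el_cons, List.map_cons, List.prod_cons, ih,
      ← mul_assoc]
    rfl

theorem shape_w_ev (i : Fin n) : shape_w Λ i ∈ Λ.ev :=
  Algebra.subset_adjoin ⟨_, _, rfl⟩

theorem shape_prod_perm (hC : ∀ a ∈ Λ.ev, ∀ b ∈ Λ.ev, a * b = b * a) {l l' : List (Fin n)}
    (h : l.Perm l') : (l.map (shape_w Λ)).prod = (l'.map (shape_w Λ)).prod := by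
  induction h with
  | nil => rfl
  | cons x _ ih => rw [List.map_cons, List.map_cons, List.prod_cons, List.prod_cons, ih]
  | swap x y l =>
    rw [List.map_cons, List.map_cons, List.prod_cons, List.prod_cons, List.map_cons,
      List.map_cons, List.prod_cons, List.prod_cons, ← mul_assoc, ← mul_assoc,
      hC _ (shape_w_ev Λ y) _ (shape_w_ev Λ x)]
  | trans _ _ h1 h2 => exact h1.trans h2

/-- products of pair forms -/
noncomputable def shape_y (I : Finset (Fin n)) : Λ.X := shape_el Λ (shape_fl I.toList) Λ.v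

theorem shape_U_y (hC : ∀ a ∈ Λ.ev, ∀ b ∈ Λ.ev, a * b = b * a) (σ : Equiv.Perm (Fin n))
    (I : Finset (Fin n)) :
    Λ.U (sI σ) (shape_y Λ I) = shape_y Λ (I.map σ.toEmbedding) := by
  unfold shape_y
  rw [shape_U_el, shape_fl_map, shape_el_fl, shape_el_fl]
  have hp : (I.toList.map σ).Perm (I.map σ.toEmbedding).toList := by
    rw [List.perm_ext_iff_of_nodup ((List.nodup_map_iff σ.injective).mpr I.nodup_toList)
      (Finset.nodup_toList _)]
    intro a
    rw [Finset.mem_toList, Finset.mem_map, List.mem_map]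
    constructor
    · rintro ⟨x, hx, h⟩; exact ⟨x, Finset.mem_toList.mp hx, h⟩
    · rintro ⟨x, hx, h⟩; exact ⟨x, Finset.mem_toList.mpr hx, h⟩
  rw [shape_prod_perm Λ hC hp]

theorem shape_y_ne (I : Finset (Fin n)) : shape_y Λ I ≠ 0 :=
  shape_el_ne Λ (shape_fl_nodup I.nodup_toList)

theorem shape_y_ind : LinearIndependent ℝ (shape_y Λ) := by
  classical
  let T : Module.End ℝ Λ.X := ∑ i : Fin n, ((2 : ℝ) ^ (i : ℕ)) •
    ((Λ.e (some (i, false)) * Λ.c (some (i, false)) : Λ.X →L[ℝ] Λ.X) : Λ.X →ₗ[ℝ] Λ.X)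
  let τ : Finset (Fin n) → ℝ := fun I => ∑ i ∈ I, (2 : ℝ) ^ (i : ℕ)
  have hinj : Function.Injective τ := by
    intro S S' h
    have h1 : ∀ S : Finset (Fin n), τ S =
        ((∑ k ∈ S.map Fin.valEmbedding, 2 ^ k : ℕ) : ℝ) := by
      intro S
      show ∑ μ ∈ S, (2 : ℝ) ^ (μ : ℕ) = _
      rw [Finset.sum_map]
      push_cast
      rfl
    rw [h1 S, h1 S'] at h
    have h2 := Finset.geomSum_injective (le_refl 2) (Nat.cast_injective h)
    exact Finset.map_injective _ h2
  refine Module.End.eigenvectors_linearIndependent' T τ hinj (shape_y Λ) ?_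
  intro I
  refine ⟨?_, shape_y_ne Λ I⟩
  rw [Module.End.mem_eigenspace_iff]
  show (∑ i : Fin n, ((2 : ℝ) ^ (i : ℕ)) •
    ((Λ.e (some (i, false)) * Λ.c (some (i, false)) : Λ.X →L[ℝ] Λ.X) : Λ.X →ₗ[ℝ] Λ.X))
    (shape_y Λ I) = τ I • shape_y Λ I
  rw [LinearMap.sum_apply]
  have h1 : ∀ i ∈ (Finset.univ : Finset (Fin n)), (((2 : ℝ) ^ (i : ℕ)) •
      ((Λ.e (some (i, false)) * Λ.c (some (i, false)) : Λ.X →L[ℝ] Λ.X) : Λ.X →ₗ[ℝ] Λ.X))
      (shape_y Λ I) = (if i ∈ I then (2 : ℝ) ^ (i : ℕ) else 0) • shape_y Λ I := by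
    intro i _
    show ((2 : ℝ) ^ (i : ℕ)) • ((Λ.e (some (i, false)) * Λ.c (some (i, false))) (shape_y Λ I)) = _
    have hm : (some (i, false) : Ix n) ∈ shape_fl I.toList ↔ i ∈ I := by
      rw [shape_fl_mem]
      constructor
      · rintro ⟨j, b, hj, h⟩
        have h2 : i = j := congrArg Prod.fst (Option.some.inj h)
        rw [h2]; exact Finset.mem_toList.mp hj
      · intro h; exact ⟨i, false, Finset.mem_toList.mpr h, rfl⟩
    unfold shape_y
    rw [shape_N, smul_smul]
    congr 1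
    by_cases h : i ∈ I
    · rw [if_pos (hm.mpr h), if_pos h, mul_one]
    · rw [if_neg (fun h' => h (hm.mp h')), if_neg h, mul_zero]
  rw [Finset.sum_congr rfl h1, ← Finset.sum_smul, Finset.sum_ite_mem, Finset.univ_inter]

theorem shape_cf_Om (i : Fin n) : Λ.c (some (i, false)) * Λ.Om =
    Λ.Om * Λ.c (some (i, false)) + Λ.e (some (i, true)) := by
  unfold Ext.Om
  rw [Finset.mul_sum, Finset.sum_mul, Finset.sum_congr rfl fun j _ => shape_c_ee Λ _ _ _,
    Finset.sum_sub_distrib, Finset.sum_add_distrib]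
  simp only [Option.some.injEq, Prod.mk.injEq, and_true, Bool.false_eq_true, and_false, if_false,
    Finset.sum_const_zero, Finset.sum_ite_eq, Finset.mem_univ, if_true, sub_zero]

theorem shape_ct_Om (i : Fin n) : Λ.c (some (i, true)) * Λ.Om =
    Λ.Om * Λ.c (some (i, true)) - Λ.e (some (i, false)) := by
  unfold Ext.Om
  rw [Finset.mul_sum, Finset.sum_mul, Finset.sum_congr rfl fun j _ => shape_c_ee Λ _ _ _,
    Finset.sum_sub_distrib, Finset.sum_add_distrib]
  simp only [Option.some.injEq, Prod.mk.injEq, and_true, Bool.true_eq_false, and_false, if_false,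
    Finset.sum_const_zero, Finset.sum_ite_eq, Finset.mem_univ, if_true, add_zero]

theorem shape_cn_Om : Λ.c none * Λ.Om = Λ.Om * Λ.c none := by
  unfold Ext.Om
  rw [Finset.mul_sum, Finset.sum_mul, Finset.sum_congr rfl fun j _ => shape_c_ee Λ _ _ _,
    Finset.sum_sub_distrib, Finset.sum_add_distrib]
  simp only [reduceCtorEq, if_false, Finset.sum_const_zero, sub_zero, add_zero]

/-- the five conditions -/
structure shape_G (w : Λ.X →L[ℝ] Λ.X) (d : ℕ) : Prop where
  ev : w ∈ Λ.ev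
  cn : Λ.c none * w = w * Λ.c none
  ec : ∀ i b, Λ.e (some (i, !b)) * (Λ.c (some (i, b)) * w - w * Λ.c (some (i, b))) = 0
  U : ∀ σ : Equiv.Perm (Fin n), w * Λ.U (sI σ) = Λ.U (sI σ) * w
  num : Λ.num * w - w * Λ.num = (2 * d : ℝ) • w

theorem shape_G_one : shape_G Λ 1 0 where
  ev := Λ.ev.one_mem
  cn := by rw [mul_one, one_mul]
  ec := fun i b => by rw [mul_one, one_mul, sub_self, mul_zero]
  U := fun σ => by rw [mul_one, one_mul]
  num := by
    rw [mul_one, one_mul, sub_self, Nat.cast_zero, mul_zero, zero_smul]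

theorem shape_G_mul (hE : ∀ a ∈ Λ.ev, ∀ μ, a * Λ.e μ = Λ.e μ * a) {w w' : Λ.X →L[ℝ] Λ.X}
    {d d' : ℕ} (h : shape_G Λ w d) (h' : shape_G Λ w' d') : shape_G Λ (w * w') (d + d') where
  ev := Λ.ev.mul_mem h.ev h'.ev
  cn := by rw [← mul_assoc, h.cn, mul_assoc, h'.cn, mul_assoc]
  ec := fun i b => by
    have h1 : Λ.c (some (i, b)) * (w * w') - w * w' * Λ.c (some (i, b)) =
        (Λ.c (some (i, b)) * w - w * Λ.c (some (i, b))) * w' +
          w * (Λ.c (some (i, b)) * w' - w' * Λ.c (some (i, b))) := by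
      rw [sub_mul, mul_sub, mul_assoc, mul_assoc, mul_assoc]; abel
    rw [h1, mul_add, ← mul_assoc, h.ec, zero_mul, zero_add, ← mul_assoc, ← hE w h.ev, mul_assoc,
      h'.ec, mul_zero]
  U := fun σ => by rw [mul_assoc, h'.U, ← mul_assoc, h.U, mul_assoc]
  num := by
    have h1 : Λ.num * (w * w') - w * w' * Λ.num =
        (Λ.num * w - w * Λ.num) * w' + w * (Λ.num * w' - w' * Λ.num) := by
      rw [sub_mul, mul_sub, mul_assoc, mul_assoc, mul_assoc]; abel
    rw [h1, h.num, h'.num, smul_mul_assoc, mul_smul_comm, ← add_smul]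
    congr 1
    push_cast
    ring

theorem shape_Om_ev : Λ.Om ∈ Λ.ev := by
  unfold Ext.Om
  exact Subalgebra.sum_mem _ fun i _ => shape_w_ev Λ i

theorem shape_G_Om : shape_G Λ Λ.Om 1 where
  ev := shape_Om_ev Λ
  cn := shape_cn_Om Λ
  ec := fun i b => by
    cases b
    · rw [shape_cf_Om, add_sub_cancel_left]
      exact shape_ee0 Λ _
    · rw [shape_ct_Om, sub_sub_cancel_left, mul_neg]
      show -(Λ.e (some (i, false)) * Λ.e (some (i, false))) = 0
      rw [shape_ee0, neg_zero]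
  U := fun σ => by
    have h : ∀ i, Λ.U (sI σ) * (Λ.e (some (i, false)) * Λ.e (some (i, true))) =
        Λ.e (some (σ i, false)) * Λ.e (some (σ i, true)) * Λ.U (sI σ) := by
      intro i
      rw [← mul_assoc, Λ.Ue, mul_assoc, Λ.Ue, ← mul_assoc]
      rfl
    unfold Ext.Om
    rw [Finset.mul_sum, Finset.sum_congr rfl fun i _ => h i, ← Finset.sum_mul,
      Equiv.sum_comp σ (fun i => Λ.e (some (i, false)) * Λ.e (some (i, true)))]
  num := by
    have h : ∀ i, Λ.num * (Λ.e (some (i, false)) * Λ.e (some (i, true))) =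
        Λ.e (some (i, false)) * Λ.e (some (i, true)) * Λ.num +
          (2 : ℝ) • (Λ.e (some (i, false)) * Λ.e (some (i, true))) := by
      intro i
      rw [← mul_assoc, shape_num_e, add_mul, mul_assoc, shape_num_e, mul_add, two_smul,
        ← mul_assoc]
      abel
    unfold Ext.Om
    rw [Finset.mul_sum, Finset.sum_congr rfl fun i _ => h i, Finset.sum_add_distrib,
      ← Finset.sum_mul, ← Finset.smul_sum, add_sub_cancel_left]
    congr 1
    rw [Nat.cast_one, mul_one]

theorem shape_G_pow (hE : ∀ a ∈ Λ.ev, ∀ μ, a * Λ.e μ = Λ.e μ * a) (d : ℕ) :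
    shape_G Λ (Λ.Om ^ d) d := by
  induction d with
  | zero => rw [pow_zero]; exact shape_G_one Λ
  | succ d ih => rw [pow_succ]; exact shape_G_mul Λ hE ih (shape_G_Om Λ)

theorem shape_key (hC : ∀ a ∈ Λ.ev, ∀ b ∈ Λ.ev, a * b = b * a) {w : Λ.X →L[ℝ] Λ.X} {d : ℕ}
    (hw : shape_G Λ w d) :
    ∃ A : ℝ, w Λ.v = A • ∑ I ∈ (Finset.univ : Finset (Fin n)).powersetCard d, shape_y Λ I := by
  classical
  obtain ⟨a, ha⟩ := shape_expand Λ (shape_ev_Sp Λ hw.ev)
  have hx : w Λ.v = ∑ S, a S • shape_b Λ S := by rw [ha]; exact shape_expand_v Λ a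
  have h1 : ∀ S : Finset (Ix n), none ∈ S → a S = 0 := by
    intro S hS
    have h := shape_diag Λ a (Λ.e none * Λ.c none) (fun S => if none ∈ S then 1 else 0) 0
      (shape_N_b Λ none) (by
        rw [← hx, zero_smul]
        have h2 : Λ.c none (w Λ.v) = w (Λ.c none Λ.v) :=
          congrArg (fun T : Λ.X →L[ℝ] Λ.X => T Λ.v) hw.cn
        show Λ.e none (Λ.c none (w Λ.v)) = 0
        rw [h2, Λ.cv, map_zero, map_zero]) S
    simp only [if_pos hS, sub_zero, mul_one] at h
    exact h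
  have h2 : ∀ (i : Fin n) (b : Bool) (S : Finset (Ix n)), some (i, b) ∈ S → some (i, !b) ∉ S →
      a S = 0 := by
    intro i b S hS hS'
    have hne : (some (i, b) : Ix n) ≠ some (i, !b) := by
      intro h
      have h' : b = !b := congrArg Prod.snd (Option.some.inj h)
      cases b <;> exact absurd h' (by decide)
    have h := shape_diag Λ a (Λ.e (some (i, b)) * Λ.c (some (i, !b)) *
        (Λ.e (some (i, !b)) * Λ.c (some (i, b))))
      (fun S => if some (i, b) ∈ S ∧ some (i, !b) ∉ S then 1 else 0) 0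
      (shape_pair_b Λ hne) (by
        rw [← hx, zero_smul]
        have h2 : (Λ.e (some (i, !b)) * (Λ.c (some (i, b)) * w - w * Λ.c (some (i, b)))) Λ.v = 0 := by
          rw [hw.ec]; rfl
        have h3 : Λ.e (some (i, !b)) (Λ.c (some (i, b)) (w Λ.v) - w (Λ.c (some (i, b)) Λ.v)) = 0 :=
          h2
        rw [Λ.cv, map_zero, sub_zero] at h3
        show Λ.e (some (i, b)) (Λ.c (some (i, !b)) (Λ.e (some (i, !b))
          (Λ.c (some (i, b)) (w Λ.v)))) = 0
        rw [h3, map_zero, map_zero]) S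
    simp only [if_pos (And.intro hS hS'), sub_zero, mul_one] at h
    exact h
  have h3 : ∀ S : Finset (Ix n), S.card ≠ 2 * d → a S = 0 := by
    intro S hS
    have h := shape_diag Λ a Λ.num (fun S => (S.card : ℝ)) (2 * d : ℝ) (shape_num_b Λ) (by
        rw [← hx]
        have h2 : Λ.num (w Λ.v) - w (Λ.num Λ.v) = (2 * d : ℝ) • w Λ.v :=
          congrArg (fun T : Λ.X →L[ℝ] Λ.X => T Λ.v) hw.num
        rw [shape_num_v, map_zero, sub_zero] at h2
        exact h2) S
    rcases mul_eq_zero.mp h with h' | h'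
    · exact h'
    · exfalso
      apply hS
      have h4 : (S.card : ℝ) = ((2 * d : ℕ) : ℝ) := by
        push_cast
        linarith
      exact_mod_cast h4
  have h4 : ∀ S : Finset (Ix n), a S • shape_b Λ S ∈
      Submodule.span ℝ (Set.range fun I : Finset (Fin n) => if I.card = d then shape_y Λ I else 0) := by
    intro S
    by_cases ha : a S = 0
    · rw [ha, zero_smul]; exact Submodule.zero_mem _
    · have hn : none ∉ S := fun h => ha (h1 S h)
      have hb : ∀ i b, some (i, b) ∈ S → some (i, !b) ∈ S := by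
        intro i b h
        by_contra h'
        exact ha (h2 i b S h h')
      have hc : S.card = 2 * d := by
        by_contra h'
        exact ha (h3 S h')
      let I : Finset (Fin n) := Finset.univ.filter fun i => (some (i, false) : Ix n) ∈ S
      have hp : S.toList.Perm (shape_fl I.toList) := by
        rw [List.perm_ext_iff_of_nodup S.nodup_toList (shape_fl_nodup I.nodup_toList)]
        intro μ
        rw [Finset.mem_toList, shape_fl_mem]
        constructor
        · intro hμ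
          rcases μ with _ | ⟨i, b⟩
          · exact absurd hμ hn
          · refine ⟨i, b, ?_, rfl⟩
            rw [Finset.mem_toList, Finset.mem_filter]
            refine ⟨Finset.mem_univ _, ?_⟩
            cases b
            · exact hμ
            · exact hb i true hμ
        · rintro ⟨i, b, hi, rfl⟩
          rw [Finset.mem_toList, Finset.mem_filter] at hi
          cases b
          · exact hi.2
          · exact hb i false hi.2
      have hI : I.card = d := by
        have h5 := hp.length_eq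
        rw [shape_fl_length, Finset.length_toList, Finset.length_toList, hc] at h5
        omega
      have hy : shape_y Λ I ∈ Submodule.span ℝ (Set.range fun I : Finset (Fin n) =>
          if I.card = d then shape_y Λ I else 0) := by
        refine Submodule.subset_span ⟨I, ?_⟩
        simp only [if_pos hI]
      refine Submodule.smul_mem _ _ ?_
      unfold shape_b
      rcases shape_el_perm Λ hp with h | h
      · rw [h]; exact hy
      · rw [h]
        show -(shape_el Λ (shape_fl I.toList) Λ.v) ∈ _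
        exact Submodule.neg_mem _ hy
  have h5 : w Λ.v ∈ Submodule.span ℝ (Set.range fun I : Finset (Fin n) =>
      if I.card = d then shape_y Λ I else 0) := by
    rw [hx]
    exact Submodule.sum_mem _ fun S _ => h4 S
  obtain ⟨α, hα⟩ := (Submodule.mem_span_range_iff_exists_fun ℝ).mp h5
  let β : Finset (Fin n) → ℝ := fun I => if I.card = d then α I else 0
  have hβ : w Λ.v = ∑ I, β I • shape_y Λ I := by
    rw [← hα]
    refine Finset.sum_congr rfl fun I _ => ?_
    show α I • (if I.card = d then shape_y Λ I else 0) = (if I.card = d then α I else 0) • _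
    split_ifs
    · rfl
    · rw [smul_zero, zero_smul]
  have hsym : ∀ (σ : Equiv.Perm (Fin n)) (I : Finset (Fin n)), β (I.map σ.toEmbedding) = β I := by
    intro σ I
    have h6 : Λ.U (sI σ) (w Λ.v) = w Λ.v := by
      have h := congrArg (fun T : Λ.X →L[ℝ] Λ.X => T Λ.v) (hw.U σ)
      have h' : w (Λ.U (sI σ) Λ.v) = Λ.U (sI σ) (w Λ.v) := h
      rw [← h', Λ.Uv]
    rw [hβ, map_sum] at h6
    have h7 : ∀ J ∈ (Finset.univ : Finset (Finset (Fin n))), Λ.U (sI σ) (β J • shape_y Λ J) =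
        β J • shape_y Λ (σ.finsetCongr J) := by
      intro J _
      rw [map_smul, shape_U_y Λ hC]
      rfl
    rw [Finset.sum_congr rfl h7] at h6
    have h8 : ∑ J, β J • shape_y Λ J =
        ∑ J, β (σ.finsetCongr J) • shape_y Λ (σ.finsetCongr J) :=
      (Equiv.sum_comp σ.finsetCongr (fun J => β J • shape_y Λ J)).symm
    rw [h8] at h6
    have h9 : ∑ J, (β (σ.finsetCongr J) - β J) • shape_y Λ (σ.finsetCongr J) = 0 := by
      simp only [sub_smul]
      rw [Finset.sum_sub_distrib, h6, sub_self]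
    have hli : LinearIndependent ℝ (fun J => shape_y Λ (σ.finsetCongr J)) :=
      (shape_y_ind Λ).comp _ σ.finsetCongr.injective
    have h10 := Fintype.linearIndependent_iff.mp hli _ h9 I
    exact sub_eq_zero.mp h10
  by_cases hex : ∃ I0 : Finset (Fin n), I0.card = d
  · obtain ⟨I0, hI0⟩ := hex
    refine ⟨β I0, ?_⟩
    rw [hβ, Finset.smul_sum]
    have hall : ∀ I : Finset (Fin n), β I • shape_y Λ I =
        if I ∈ (Finset.univ : Finset (Fin n)).powersetCard d then β I0 • shape_y Λ I else 0 := by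
      intro I
      by_cases hI : I.card = d
      · rw [if_pos (Finset.mem_powersetCard_univ.mpr hI)]
        have hc : I0.card = I.card := by rw [hI0, hI]
        let E := Finset.equivOfCardEq hc
        let σ : Equiv.Perm (Fin n) := Equiv.extendSubtype E
        have hσ : I0.map σ.toEmbedding = I := by
          apply Finset.eq_of_subset_of_card_le
          · intro x hx
            rw [Finset.mem_map] at hx
            obtain ⟨y, hy, rfl⟩ := hx
            exact Equiv.extendSubtype_mem E y hy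
          · rw [Finset.card_map, hc]
        rw [← hσ, hsym]
      · rw [if_neg (fun h => hI (Finset.mem_powersetCard_univ.mp h))]
        show (if I.card = d then α I else 0) • _ = _
        rw [if_neg hI, zero_smul]
    rw [Finset.sum_congr rfl fun I _ => hall I, Finset.sum_ite_mem, Finset.univ_inter]
  · refine ⟨0, ?_⟩
    rw [zero_smul, hβ]
    refine Finset.sum_eq_zero fun I _ => ?_
    show (if I.card = d then α I else 0) • _ = _
    rw [if_neg (fun h => hex ⟨I, h⟩), zero_smul]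

/-- the number operator without `none` -/
theorem shape_CC (k : ℕ) (hE : ∀ a ∈ Λ.ev, ∀ μ, a * Λ.e μ = Λ.e μ * a) :
    (∑ i : Fin n, Λ.c (some (i, true)) * Λ.c (some (i, false))) ((Λ.Om ^ (k + 1)) Λ.v) =
      (((k : ℝ) + 1) * ((n : ℝ) - k)) • (Λ.Om ^ k) Λ.v := by
  have hcomm : ∀ T : Λ.X →L[ℝ] Λ.X,
      (∑ i : Fin n, Λ.c (some (i, true)) * Λ.c (some (i, false))) (Λ.Om (T Λ.v)) =
      Λ.Om ((∑ i : Fin n, Λ.c (some (i, true)) * Λ.c (some (i, false))) (T Λ.v)) +
        (n : ℝ) • T Λ.v - (Λ.num - Λ.e none * Λ.c none) (T Λ.v) := by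
    intro T
    have h1 : ∀ i : Fin n, Λ.c (some (i, true)) * Λ.c (some (i, false)) * Λ.Om =
        Λ.Om * (Λ.c (some (i, true)) * Λ.c (some (i, false))) + 1 -
          (Λ.e (some (i, true)) * Λ.c (some (i, true)) +
            Λ.e (some (i, false)) * Λ.c (some (i, false))) := by
      intro i
      rw [mul_assoc, shape_cf_Om, mul_add, ← mul_assoc, shape_ct_Om, shape_ce, sub_mul, mul_assoc]
      abel
    have h2 : (∑ i : Fin n, Λ.c (some (i, true)) * Λ.c (some (i, false))) * Λ.Om =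
        Λ.Om * (∑ i : Fin n, Λ.c (some (i, true)) * Λ.c (some (i, false))) +
          (n : ℝ) • (1 : Λ.X →L[ℝ] Λ.X) - (Λ.num - Λ.e none * Λ.c none) := by
      rw [Finset.sum_mul, Finset.sum_congr rfl fun i _ => h1 i, Finset.sum_sub_distrib,
        Finset.sum_add_distrib, ← Finset.mul_sum]
      congr 1
      · congr 1
        rw [Finset.sum_const, Finset.card_univ, Fintype.card_fin, Nat.cast_smul_eq_nsmul]
      · unfold Ext.num
        rw [Fintype.sum_option, add_sub_cancel_left, Fintype.sum_prod_type]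
        refine Finset.sum_congr rfl fun i _ => ?_
        rw [Fintype.sum_bool]
    have h3 := congrArg (fun S : Λ.X →L[ℝ] Λ.X => S (T Λ.v)) h2
    exact h3
  have hnum : ∀ k : ℕ, (Λ.num - Λ.e none * Λ.c none) ((Λ.Om ^ k) Λ.v) =
      (2 * k : ℝ) • (Λ.Om ^ k) Λ.v := by
    intro k
    have hG := shape_G_pow Λ hE k
    have h2 : Λ.num ((Λ.Om ^ k) Λ.v) - (Λ.Om ^ k) (Λ.num Λ.v) = (2 * k : ℝ) • (Λ.Om ^ k) Λ.v :=
      congrArg (fun T : Λ.X →L[ℝ] Λ.X => T Λ.v) hG.num
    rw [shape_num_v, map_zero, sub_zero] at h2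
    have h3 : Λ.c none ((Λ.Om ^ k) Λ.v) = (Λ.Om ^ k) (Λ.c none Λ.v) :=
      congrArg (fun T : Λ.X →L[ℝ] Λ.X => T Λ.v) hG.cn
    show Λ.num ((Λ.Om ^ k) Λ.v) - Λ.e none (Λ.c none ((Λ.Om ^ k) Λ.v)) = _
    rw [h2, h3, Λ.cv, map_zero, map_zero, sub_zero]
  induction k with
  | zero =>
    have h1 := hcomm 1
    have h2 := hnum 0
    rw [pow_zero] at h2
    have h0 : (∑ i : Fin n, Λ.c (some (i, true)) * Λ.c (some (i, false)))
        ((1 : Λ.X →L[ℝ] Λ.X) Λ.v) = 0 := by
      show (∑ i : Fin n, Λ.c (some (i, true)) * Λ.c (some (i, false))) Λ.v = 0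
      rw [ContinuousLinearMap.sum_apply]
      refine Finset.sum_eq_zero fun i _ => ?_
      show Λ.c (some (i, true)) (Λ.c (some (i, false)) Λ.v) = 0
      rw [Λ.cv, map_zero]
    rw [h0, map_zero, zero_add, h2] at h1
    rw [zero_add, pow_one, pow_zero]
    have h3 : Λ.Om ((1 : Λ.X →L[ℝ] Λ.X) Λ.v) = Λ.Om Λ.v := rfl
    rw [h3] at h1
    rw [h1, ← sub_smul]
    congr 1
    push_cast
    ring
  | succ k ih =>
    have h1 := hcomm (Λ.Om ^ (k + 1))
    have h3 : Λ.Om ((Λ.Om ^ (k + 1)) Λ.v) = (Λ.Om ^ (k + 1 + 1)) Λ.v := by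
      rw [pow_succ' _ (k + 1)]; rfl
    rw [h3, ih, hnum, map_smul] at h1
    have h4 : Λ.Om ((Λ.Om ^ k) Λ.v) = (Λ.Om ^ (k + 1)) Λ.v := by
      rw [pow_succ' _ k]; rfl
    rw [h4] at h1
    rw [h1, ← add_smul, ← sub_smul]
    congr 1
    push_cast
    ring

theorem shape_Om_ne (hE : ∀ a ∈ Λ.ev, ∀ μ, a * Λ.e μ = Λ.e μ * a) (d : ℕ) (hd : d ≤ n) :
    (Λ.Om ^ d) Λ.v ≠ 0 := by
  induction d with
  | zero => rw [pow_zero]; exact Λ.hv
  | succ k ih =>
    intro h0
    have h1 := shape_CC Λ k hE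
    rw [h0, map_zero] at h1
    rcases smul_eq_zero.mp h1.symm with h | h
    · have h2 : (k : ℝ) + 1 ≠ 0 := by positivity
      have h3 : (n : ℝ) - k ≠ 0 := by
        have h4 : (k : ℝ) + 1 ≤ n := by exact_mod_cast hd
        intro h5
        linarith
      exact mul_ne_zero h2 h3 h
    · exact ih (by omega) h

end pairs

theorem st_SHAPE (hEV : ST_EVEN) : ST_SHAPE := by
  intro n Λ
  obtain ⟨hE, hC, -⟩ := hEV (Ix n) Λ
  refine ⟨?_, ?_, ?_⟩
  · intro d w h1 h2 h3 h4 h5
    have hw : shape_G Λ w d := ⟨h1, h2, h3, h4, h5⟩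
    show ∃ a : ℝ, w = a • Λ.Om ^ d
    obtain ⟨A, hA⟩ := shape_key Λ hC hw
    by_cases hd : d ≤ n
    · obtain ⟨B, hB⟩ := shape_key Λ hC (shape_G_pow Λ hE d)
      have hB0 : B ≠ 0 := by
        intro h
        rw [h, zero_smul] at hB
        exact shape_Om_ne Λ hE d hd hB
      refine ⟨A / B, ?_⟩
      have hv : (w - (A / B) • Λ.Om ^ d) Λ.v = 0 := by
        show w Λ.v - (A / B) • (Λ.Om ^ d) Λ.v = 0
        rw [hA, hB, smul_smul, div_mul_cancel₀ A hB0, sub_self]
      have hm : w - (A / B) • Λ.Om ^ d ∈ Λ.ev :=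
        Λ.ev.sub_mem h1 (Λ.ev.smul_mem (Λ.ev.pow_mem (shape_Om_ev Λ) d) _)
      exact sub_eq_zero.mp (shape_inj Λ (shape_ev_Sp Λ hm) hv)
    · refine ⟨0, ?_⟩
      rw [zero_smul]
      apply shape_inj Λ (shape_ev_Sp Λ h1)
      have h6 : (Finset.univ : Finset (Fin n)).powersetCard d = ∅ := by
        apply Finset.powersetCard_eq_empty.mpr
        rw [Finset.card_univ, Fintype.card_fin]
        omega
      rw [hA, h6, Finset.sum_empty, smul_zero]
  · intro d hd
    exact shape_Om_ne Λ hE d hd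
  · intro φ a hφ h i
    have h0 : Λ.two φ = a • Λ.Om := h
    have h1 := congrArg (fun T : Λ.X →L[ℝ] Λ.X =>
      Λ.c (some (i, true)) (Λ.c (some (i, false)) (T Λ.v))) h0
    have h2 : Λ.c (some (i, true)) (Λ.c (some (i, false)) (Λ.two φ Λ.v)) =
        φ (some (i, false)) (some (i, true)) • Λ.v := by
      unfold Ext.two
      show Λ.c (some (i, true)) (Λ.c (some (i, false))
        ((1 / 2 : ℝ) • ((∑ μ, ∑ ν, φ μ ν • (Λ.e μ * Λ.e ν)) Λ.v))) = _
      rw [map_smul, map_smul, ContinuousLinearMap.sum_apply, map_sum, map_sum]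
      have h3 : ∀ μ, Λ.c (some (i, true)) (Λ.c (some (i, false))
          ((∑ ν, φ μ ν • (Λ.e μ * Λ.e ν)) Λ.v)) =
          ((if some (i, false) = μ then φ μ (some (i, true)) else 0) -
            (if some (i, true) = μ then φ μ (some (i, false)) else 0)) • Λ.v := by
        intro μ
        rw [ContinuousLinearMap.sum_apply, map_sum, map_sum]
        have h4 : ∀ ν, Λ.c (some (i, true)) (Λ.c (some (i, false))
            ((φ μ ν • (Λ.e μ * Λ.e ν)) Λ.v)) =
            ((if some (i, true) = ν then (if some (i, false) = μ then φ μ ν else 0) else 0) -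
            (if some (i, false) = ν then (if some (i, true) = μ then φ μ ν else 0) else 0)) •
              Λ.v := by
          intro ν
          show Λ.c (some (i, true)) (Λ.c (some (i, false))
            (φ μ ν • ((Λ.e μ * Λ.e ν) Λ.v))) = _
          rw [map_smul, map_smul, shape_cc_ee, smul_smul]
          congr 1
          split_ifs <;> ring
        rw [Finset.sum_congr rfl fun ν _ => h4 ν, ← Finset.sum_smul, Finset.sum_sub_distrib,
          Finset.sum_ite_eq, Finset.sum_ite_eq, if_pos (Finset.mem_univ _),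
          if_pos (Finset.mem_univ _)]
      rw [Finset.sum_congr rfl fun μ _ => h3 μ, ← Finset.sum_smul, Finset.sum_sub_distrib,
        Finset.sum_ite_eq, Finset.sum_ite_eq, if_pos (Finset.mem_univ _),
        if_pos (Finset.mem_univ _), smul_smul]
      congr 1
      rw [hφ (some (i, true)) (some (i, false))]
      ring
    have h3 : Λ.c (some (i, true)) (Λ.c (some (i, false)) ((a • Λ.Om) Λ.v)) = a • Λ.v := by
      show Λ.c (some (i, true)) (Λ.c (some (i, false)) (a • (Λ.Om Λ.v))) = _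
      unfold Ext.Om
      rw [map_smul, map_smul, ContinuousLinearMap.sum_apply, map_sum, map_sum,
        Finset.sum_congr rfl fun j _ => shape_cc_ee Λ _ _ _ _, ← Finset.sum_smul, smul_smul]
      congr 1
      simp only [Option.some.injEq, Prod.mk.injEq, and_true, Bool.false_eq_true,
        Bool.true_eq_false, and_false, if_false, mul_zero, sub_zero, mul_ite, mul_one,
        Finset.sum_ite_eq, Finset.mem_univ, if_true]
    have h4 : φ (some (i, false)) (some (i, true)) • Λ.v = a • Λ.v := by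
      rw [← h2, ← h3]; exact h1
    exact smul_left_injective ℝ Λ.hv h4

end Pool.Agent.Helper83.CB
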